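import Pool.Agent.Helper75.CR.All2

/-!
# Completely regular involution semigroup varieties with modular subvariety lattice

Involution semigroups `InvSg`, varieties `IsVar`, and the modularity `ModLat V` of the lattice of subvarieties of `V` are defined in
`Pool/Agent/Helper1/IM/Var.lean`; `IsCR` (completely regular), `Abs` (the identities `x x* = x* x`, `x x* x = x x*`), `SL3 = {e, e*, 0}` and
`SL4 = {1, e, e*, 0}` in `Pool/Agent/Helper75/CR/St2.lean`; `HasNull` in `Pool/Agent/Helper75/CR/NullFree.lean`, `HRM` in
`Pool/Agent/Helper75/CR/HR.lean`, `B2` in `Pool/Agent/Helper1/CR/M_R1.lean`, `Per` in `Pool/Agent/Helper75/CR/All2.lean`.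
-/

set_option autoImplicit false

namespace Pool.Agent.Results.MP_265e56_al.CompletelyRegular

open Helper1.IM Pool.Agent.Helper75.CR

/-- Let `V` be a variety of completely regular involution semigroups, or a variety without nontrivial null algebras which contains `SL3` or is
periodic and does not contain the Brandt semigroup `B2`.  If `L(V)` is modular then `SL3 ∉ V` or `V` satisfies `x x* = x* x`, `x x* x = x x*`.
Conversely `L(V)` is modular if `SL3 ∉ V`, or if `V` satisfies these identities and `SL4 ∉ V` or `a b c x x*` always is in the right ideal of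
`a c b x x*`. -/
theorem result (V : Set InvSg) (hV : IsVar V)
    (h : (∀ A ∈ V, IsCR A) ∨ (¬ HasNull V ∧ (SL3 ∈ V ∨ (B2 ∉ V ∧ Per V)))) :
    (ModLat V → SL3 ∉ V ∨ Abs V) ∧ (SL3 ∉ V ∨ (Abs V ∧ (SL4 ∉ V ∨ HRM V)) → ModLat V) :=
  main2 V hV h

end Pool.Agent.Results.MP_265e56_al.CompletelyRegular
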