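import Pool.Agent.Helper1.IM.Fin
import Pool.Agent.Helper93.IM.M_FinV

/-!
# The nil varieties of involution semigroups with modular subvariety lattice: finitely many maximal ones

There are finitely many nil varieties of involution semigroups with modular subvariety lattice, each defined by finitely many identities
between words of length at most eight, such that a nil variety has a modular subvariety lattice if and only if it is contained in one
of them.

Proof idea. Let `V` be nil with modular `L(V)` and let `θ` be its fully invariant congruence. The type theorem of project IM gives that `θ`
is of one of finitely many types in high degree, each expressed by identities between words of length at most eight; let `E` be the set of all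
identities of `V` between words of length at most eight in boundedly many letters (finite, and of finitely many kinds). For every
congruence `α` containing `E` the congruences above `α` which identify all words of length at least seven contain `θ` on short words, so
the modular law below degree seven is inherited from `θ`, and the main theorem (modular in degree below seven implies modular)
applies to `α`, since `α` contains a power of `x` as zero word.
-/

set_option autoImplicit false

namespace Pool.Agent.Results.MP_265e56_al.FinitelyManyMaximal

open Helper1.IM Pool.Agent.Helper93.IM

/-- There is a finite list of finite systems `E` of identities between words of length at most eight, each of which defines a nil variety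
`Cls E` with modular subvariety lattice, such that a nil variety `V` has a modular subvariety lattice if and only if it is contained in one
of the varieties `Cls E`. -/
theorem result : ∃ L : List (List (Tm × Tm)),
    (∀ E ∈ L, ∀ p ∈ E, p.1.wd.length ≤ 8 ∧ p.2.wd.length ≤ 8) ∧
    (∀ E ∈ L, IsNil (Cls E) ∧ ModLat (Cls E)) ∧
    ∀ V : Set InvSg, IsVar V → IsNil V → (ModLat V ↔ ∃ E ∈ L, V ⊆ Cls E) :=
  hThC (hFin (hTy fG fH fC fM) fHX fMain) (hV2 hV1) fV3 fV5 fV6

end Pool.Agent.Results.MP_265e56_al.FinitelyManyMaximal
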