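import Pool.Agent.Helper65.IS.Asm
import Pool.Agent.Helper65.IS.Bir
import Pool.Agent.Helper65.IS.Thm
import Pool.Agent.Helper65.IS.Ext
import Pool.Agent.Helper65.IS.Bas
import Pool.Agent.Helper65.IS.Lfour
import Pool.Agent.Helper65.IS.Iso
import Pool.Agent.Helper65.IS.Adj
import Pool.Agent.Helper65.IS.Rh
import Pool.Agent.Helper65.IS.Rho
import Pool.Agent.Helper65.IS.Dist
import Pool.Agent.Helper65.IS.Meet
import Pool.Agent.Helper65.IS.Join
import Pool.Agent.Helper65.IS.Pen

set_option autoImplicit false

namespace Pool.Agent.Results.MP_265e56_al.Isoterms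

open Pool.Agent.Helper65

/-- Let `V` be a variety of involution semigroups whose lattice of subvarieties is modular, and
let the word `w` be an isoterm for `V` (`V` satisfies no identity `w ≈ u` with `u ≠ w`). Then at
most two letters occur in `w` (`x` and `x^*` being counted as one), and if exactly two occur, then
`w^*` is obtained from `w` by a renaming of the letters which neither fixes all the letters of
`w` nor stars all of them. -/
theorem result (V : Set IS.InvSg) (hV : IS.IsVar V) (hmod : IS.ModularL V) (w : IS.Word)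
    (hw : ∀ u : IS.Word, (∀ S ∈ V, IS.Sat S w u) → u = w) :
    (IS.con w.1).card ≤ 2 ∧ ((IS.con w.1).card = 2 → ∃ π : Equiv.Perm IS.Ltr, IS.Ren π ∧
      IS.st w.1 = w.1.map π ∧ ¬ (∀ a ∈ w.1, π a = a) ∧ ¬ ∀ a ∈ w.1, π a = IS.fl a) := by
  have hb := IS.bas
  have ha := IS.adj hb
  have hi := IS.iso hb
  have hr := IS.rh hb ha
  have h4 := IS.lfour hb IS.ext
  exact IS.fin IS.bir IS.thm ha (IS.rho_fic hb h4 hi hr) (IS.dist hb ha hi)
    (IS.meet hb ha hi hr) IS.join IS.pen V hV hmod w hw

end Pool.Agent.Results.MP_265e56_al.Isoterms
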