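import Pool.Agent.Helper1.IM.NFin

/-!
# Varieties of involution semigroups with modular subvariety lattice which contain a nontrivial null algebra

Let `V` be a variety of involution semigroups containing a nontrivial null algebra (all products are equal). Then the lattice `L(V)` of
subvarieties is modular if and only if `L(V ∩ N7)` is modular (`N7`: all products of seven elements are zero) and, for some `ω ≥ 7` and
`n ≥ 1`, `V` satisfies the basic identities `x^ω = x^(2ω)`, `x^(ω+1) = (x*)^(ω+1)`, `x^(ω+1) y^(ω+1) = y^(ω+1) x^(ω+1)`, has period `n`,
and satisfies the identities of one of the three types K, C, Q:

* K: `x^ω y = x^ω y^(ω+1)`, and `n = 1` or `u = x^(ω+2) y^(ω+1)` for `u = xxy, xx*y, xyx, xyx*`;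
* C: `x^ω y = y x^ω`, `x^ω y z = x^ω z y`, and `u = x^(ω+2) y` for `u = xxy, xx*y, xyx, xyx*`;
* Q: `x y z = x y^(ω+1) z`, `x^ω y x^ω = x^ω y^(ω+1)`, `x y^(ω+q) x = x^(ω+2) y^(ω+q)` for every prime `p` dividing `n` (`q` the exact
  power of `p` dividing `n`), and `x y^ω x* = x^(ω+2) y^ω` if `n` is even.

Proof (folder `Pool/Agent/Helper1/IM/`, statements with complete proofs in the files `St*.lean` and `NSt*.lean`). Varieties are replaced by
fully invariant congruences of the free involution semigroup. Necessity: pentagons show that idempotents are symmetric, regular elements
are group elements, groups are abelian with trivial star, and that the variety is periodic; three kinds of test varieties (semilattices,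
words with fixed first and last letter, words modulo content of length three) and a maximality argument give the types. Sufficiency: in
each type a congruence is determined by its restriction to the ideal of words containing an `ω`-th power and by its nil part, both parts
are compared by permutability, the nil part is reduced to words of length at most six, and the two parts are glued.
-/

set_option autoImplicit false

namespace Pool.Agent.Results.MP_265e56_al.NullClassification

open Helper1.IM

/-- A variety `V` of involution semigroups containing a nontrivial null algebra has modular subvariety lattice iff `V ∩ N7` has and `V`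
satisfies, for some `ω` and `n`, the basic identities and the identities of type K, C or Q. -/
theorem result : ∀ V : Set InvSg, IsVar V → HasNull V →
    (ModLat V ↔ ModLat (V ∩ N7) ∧ ∃ ω n : ℕ, Base V ω n ∧ (TypeK V ω n ∨ TypeC V ω ∨ TypeQ V ω n)) := thC

end Pool.Agent.Results.MP_265e56_al.NullClassification
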